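import Pool.Agent.TH612.GS.Stm3
import Pool.Agent.TH767.GS.NS

/-!
Job GF-NA of helper612 (written by helper637, after helper767's NS): for fixed `α` almost all `β`
are separated.
-/

set_option autoImplicit false
open Complex Filter Topology MeasureTheory Set
open Pool.Agent.TH612.GS

namespace Pool.Agent.TH637.GF

noncomputable section

lemma slab_pi {ι : Type} [Fintype ι] [DecidableEq ι] (T r a : ℝ) (l : ι) :
    (Measure.pi fun _ : ι => (volume.restrict (Icc (0:ℝ) T))) {β | |β l - a| < r} ≤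
      ENNReal.ofReal (2 * r) * ENNReal.ofReal T ^ (Fintype.card ι - 1) := by
  have h1 : {β : ι → ℝ | |β l - a| < r} =
      Set.pi univ (Function.update (fun _ => univ) l {y : ℝ | |y - a| < r}) := by
    rw [← Set.eval_preimage]
    rfl
  rw [h1, Measure.pi_pi, ← Finset.mul_prod_erase Finset.univ _ (Finset.mem_univ l)]
  simp only [Function.update_self]
  refine mul_le_mul' (Pool.Agent.TH767.GS.slab_le T r a) ?_
  have h2 : ∀ i ∈ Finset.univ.erase l, (volume.restrict (Icc (0:ℝ) T))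
      (Function.update (fun _ => univ) l {y : ℝ | |y - a| < r} i) = ENNReal.ofReal T := by
    intro i hi
    rw [Function.update_of_ne (Finset.ne_of_mem_erase hi)]
    simp
  rw [Finset.prod_congr rfl h2, Finset.prod_const, Finset.card_erase_of_mem (Finset.mem_univ l),
    Finset.card_univ]

lemma na (k : ℕ) (α : Fin k → ℝ) (T : ℝ) (hT : 1 ≤ T) :
    mP (Fin k) T (SepA α T)ᶜ ≤ ENNReal.ofReal ((4 * k ^ 2 + 1) * T ^ (k - 1 / 2 : ℝ)) := by
  have hT0 : (0 : ℝ) < T := by linarith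
  set r : ℝ := T ^ (1 / 2 : ℝ) with hr
  have hr0 : 0 ≤ r := by positivity
  have hsub : (SepA α T)ᶜ ⊆ (⋃ i : Fin k, Function.eval i ⁻¹' (Icc 0 T)ᶜ) ∪
      ((⋃ i : Fin k × Fin k, {β : Fin k → ℝ | i.1 ≠ i.2 ∧ |β i.1 - β i.2| < r}) ∪
      ⋃ i : Fin k × Fin k, {β : Fin k → ℝ | |β i.2 - α i.1| < r}) := by
    intro β hβ
    by_cases h : ∀ i, 0 ≤ β i ∧ β i ≤ T
    · right
      by_cases h2 : ∀ p q, p ≠ q → T ^ (1 / 2 : ℝ) ≤ |β p - β q|
      · right
        have h3 : ¬ ∀ j l, T ^ (1 / 2 : ℝ) ≤ |β l - α j| := fun h3 => hβ ⟨h, h2, h3⟩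
        push Not at h3
        obtain ⟨p, q, h4⟩ := h3
        exact Set.mem_iUnion.2 ⟨(p, q), h4⟩
      · left
        push Not at h2
        obtain ⟨p, q, hpq, h3⟩ := h2
        exact Set.mem_iUnion.2 ⟨(p, q), hpq, h3⟩
    · left
      rw [not_forall] at h
      obtain ⟨i, hi⟩ := h
      exact Set.mem_iUnion.2 ⟨i, hi⟩
  have hnull : mP (Fin k) T (⋃ i : Fin k, Function.eval i ⁻¹' (Icc 0 T)ᶜ) = 0 := by
    rw [measure_iUnion_null_iff]
    intro i
    apply Measure.pi_eval_preimage_null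
    rw [Measure.restrict_apply measurableSet_Icc.compl]
    simp
  have hpow : ∀ _ : Fin k, ENNReal.ofReal (2 * r) * ENNReal.ofReal T ^ (Fintype.card (Fin k) - 1) ≤
      ENNReal.ofReal (2 * T ^ (k - 1 / 2 : ℝ)) := by
    intro p
    have hk : 1 ≤ k := Nat.one_le_iff_ne_zero.2 (by rintro rfl; exact p.elim0)
    rw [Fintype.card_fin, ← ENNReal.ofReal_pow hT0.le, ← ENNReal.ofReal_mul (by positivity)]
    apply ENNReal.ofReal_le_ofReal
    have h5 : T ^ (k - 1 / 2 : ℝ) = r * T ^ (k - 1 : ℕ) := by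
      rw [hr, ← Real.rpow_natCast, ← Real.rpow_add hT0]
      congr 1
      rw [Nat.cast_sub (by omega)]
      push_cast
      ring
    rw [h5]
    apply le_of_eq
    ring
  have hpair : ∀ i : Fin k × Fin k,
      mP (Fin k) T {β : Fin k → ℝ | i.1 ≠ i.2 ∧ |β i.1 - β i.2| < r} ≤
      ENNReal.ofReal (2 * T ^ (k - 1 / 2 : ℝ)) := by
    rintro ⟨p, q⟩
    by_cases hpq : p = q
    · have : {γ : Fin k → ℝ | (p, q).1 ≠ (p, q).2 ∧ |γ (p, q).1 - γ (p, q).2| < r} = ∅ := by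
        ext γ
        simp [hpq]
      rw [this, measure_empty]
      exact zero_le
    · have h4 : {γ : Fin k → ℝ | (p, q).1 ≠ (p, q).2 ∧ |γ (p, q).1 - γ (p, q).2| < r} ⊆
          {γ : Fin k → ℝ | |γ p - γ q| < r} := fun γ hγ => hγ.2
      refine (measure_mono h4).trans ?_
      exact (Pool.Agent.TH767.GS.pair_le T r p q hpq).trans (hpow p)
  have hslab : ∀ i : Fin k × Fin k, mP (Fin k) T {β : Fin k → ℝ | |β i.2 - α i.1| < r} ≤
      ENNReal.ofReal (2 * T ^ (k - 1 / 2 : ℝ)) := by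
    rintro ⟨p, q⟩
    exact (slab_pi T r (α p) q).trans (hpow p)
  have hc : ∀ f : Fin k × Fin k → Set (Fin k → ℝ),
      (∀ i, mP (Fin k) T (f i) ≤ ENNReal.ofReal (2 * T ^ (k - 1 / 2 : ℝ))) →
      mP (Fin k) T (⋃ i, f i) ≤ ENNReal.ofReal (2 * k ^ 2 * T ^ (k - 1 / 2 : ℝ)) := by
    intro f hf
    calc mP (Fin k) T (⋃ i, f i) ≤ ∑ i, mP (Fin k) T (f i) := measure_iUnion_fintype_le _ _
      _ ≤ ∑ _i : Fin k × Fin k, ENNReal.ofReal (2 * T ^ (k - 1 / 2 : ℝ)) :=
          Finset.sum_le_sum fun i _ => hf i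
      _ = ENNReal.ofReal (2 * k ^ 2 * T ^ (k - 1 / 2 : ℝ)) := by
        rw [Finset.sum_const, Finset.card_univ, Fintype.card_prod, Fintype.card_fin, nsmul_eq_mul,
          ← ENNReal.ofReal_natCast, ← ENNReal.ofReal_mul (by positivity)]
        congr 1
        push_cast
        ring
  calc mP (Fin k) T (SepA α T)ᶜ ≤ _ := measure_mono hsub
    _ ≤ mP (Fin k) T (⋃ i : Fin k, Function.eval i ⁻¹' (Icc 0 T)ᶜ) +
      (mP (Fin k) T (⋃ i : Fin k × Fin k, {β : Fin k → ℝ | i.1 ≠ i.2 ∧ |β i.1 - β i.2| < r}) +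
      mP (Fin k) T (⋃ i : Fin k × Fin k, {β : Fin k → ℝ | |β i.2 - α i.1| < r})) :=
        (measure_union_le _ _).trans (add_le_add le_rfl (measure_union_le _ _))
    _ ≤ 0 + (ENNReal.ofReal (2 * k ^ 2 * T ^ (k - 1 / 2 : ℝ)) +
        ENNReal.ofReal (2 * k ^ 2 * T ^ (k - 1 / 2 : ℝ))) := by
        rw [hnull]
        gcongr
        · exact hc _ hpair
        · exact hc _ hslab
    _ = ENNReal.ofReal (4 * k ^ 2 * T ^ (k - 1 / 2 : ℝ)) := by
        rw [zero_add, ← ENNReal.ofReal_add (by positivity) (by positivity)]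
        congr 1
        ring
    _ ≤ ENNReal.ofReal ((4 * k ^ 2 + 1) * T ^ (k - 1 / 2 : ℝ)) := by
        apply ENNReal.ofReal_le_ofReal
        have : 0 ≤ T ^ (k - 1 / 2 : ℝ) := by positivity
        linarith

theorem t_NA : Pool.Agent.TH612.GS.S_NA := by
  intro k α
  exact ⟨4 * k ^ 2 + 1, 1, by positivity, le_rfl, fun T hT => na k α T hT⟩

end

end Pool.Agent.TH637.GF
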